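import Pool.Agent.X137.WR.Dist

namespace Pool.Agent.X137.WR
open Finset

theorem exists_rel (N : ℕ) (t0 : Fin N) (L : ℕ → ℕ) (hL : ∀ a b, a ≤ b → L b ≤ L a) (q : ℕ → ℕ)
    (hq1 : ∀ m, 1 ≤ m → L m - L (m+1) ≤ q m) (hq2 : ∀ m, 1 ≤ m → q m ≤ N * (L m - L (m+1))) :
    ∃ rel : Fin N → ℕ → Prop, (∀ i, rel t0 i) ∧ ∀ m, 1 ≤ m → 
      ∀ [∀ t i, Decidable (rel t i)], 
      (∑ t : Fin N, ∑ i ∈ Finset.Ico (L (m+1)) (L m), (if rel t i then 1 else 0)) = q m := by
  classical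
  have hex : ∀ m : ℕ, ∃ S : Finset (Fin N × ℕ), 1 ≤ m → (({t0} : Finset (Fin N)) ×ˢ Finset.Ico (L (m+1)) (L m)) ⊆ S ∧
      S ⊆ (univ : Finset (Fin N)) ×ˢ Finset.Ico (L (m+1)) (L m) ∧ S.card = q m := by
    intro m
    by_cases hm : 1 ≤ m
    · obtain ⟨S, h1, h2, h3⟩ := Finset.exists_subsuperset_card_eq 
        (s := ({t0} : Finset (Fin N)) ×ˢ Finset.Ico (L (m+1)) (L m))
        (t := (univ : Finset (Fin N)) ×ˢ Finset.Ico (L (m+1)) (L m)) (n := q m)
        (Finset.product_subset_product_left (Finset.subset_univ _))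
        (by rw [Finset.card_product, Finset.card_singleton, one_mul, Nat.card_Ico]; exact hq1 m hm)
        (by rw [Finset.card_product, Finset.card_univ, Fintype.card_fin, Nat.card_Ico]; exact hq2 m hm)
      exact ⟨S, fun _ => ⟨h1, h2, h3⟩⟩
    · exact ⟨∅, fun h => absurd h hm⟩
  choose S hS using hex
  refine ⟨fun t i => t = t0 ∨ ∃ m, 1 ≤ m ∧ (t, i) ∈ S m, fun i => Or.inl rfl, ?_⟩
  intro m hm inst
  obtain ⟨h1, h2, h3⟩ := hS m hm
  have key : ∀ t i, i ∈ Finset.Ico (L (m+1)) (L m) → 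
      ((t = t0 ∨ ∃ m, 1 ≤ m ∧ (t, i) ∈ S m) ↔ (t, i) ∈ S m) := by
    intro t i hi
    constructor
    · rintro (rfl | ⟨m', hm', h'⟩)
      · apply h1
        rw [Finset.mem_product]
        exact ⟨Finset.mem_singleton_self _, hi⟩
      · have := (hS m' hm').2.1 h'
        rw [Finset.mem_product, Finset.mem_Ico] at this
        rw [Finset.mem_Ico] at hi
        rcases lt_trichotomy m m' with h4 | h4 | h4
        · have := hL (m+1) m' h4
          omega
        · rw [h4]; exact h'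
        · have := hL (m'+1) m h4
          omega
    · intro h
      exact Or.inr ⟨m, hm, h⟩
  rw [← h3]
  rw [← Finset.sum_product' (f := fun t i => if (t = t0 ∨ ∃ m, 1 ≤ m ∧ (t, i) ∈ S m) then 1 else 0)]
  have : ∀ p ∈ (univ : Finset (Fin N)) ×ˢ Finset.Ico (L (m+1)) (L m), 
      (if (p.1 = t0 ∨ ∃ m, 1 ≤ m ∧ (p.1, p.2) ∈ S m) then 1 else 0) = if p ∈ S m then 1 else 0 := by
    intro p hp
    rw [Finset.mem_product] at hp
    have := key p.1 p.2 hp.2
    simp only [this]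
  rw [Finset.sum_congr rfl this, ← Finset.card_filter]
  congr 1
  ext p
  rw [Finset.mem_filter]
  exact ⟨fun h => h.2, fun h => ⟨h2 h, h⟩⟩

theorem exists_E (N : ℕ) (hN : 0 < N) (f : ℕ) (hf : 2 * f ≤ (N - 1) * (N - 2)) :
    ∃ E : Fin N → Fin N → Prop, (∀ t t', E t t' → E t' t) ∧ (∀ t, t ≠ ⟨0, hN⟩ → E ⟨0, hN⟩ t) ∧
      ∀ [∀ t t', Decidable (E t t')],
      (∑ t : Fin N, ∑ t' : Fin N, (if t ≠ t' ∧ ¬ E t t' then 1 else 0)) = 2 * f := by
  classical
  set U : Finset (Fin N) := univ.erase ⟨0, hN⟩ with hU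
  set Q : Finset (Fin N × Fin N) := U.offDiag.filter (fun p => p.1 < p.2) with hQ
  set Q' : Finset (Fin N × Fin N) := U.offDiag.filter (fun p => ¬ p.1 < p.2) with hQ'
  have hcU : U.card = N - 1 := by
    rw [hU, Finset.card_erase_of_mem (Finset.mem_univ _), Finset.card_univ, Fintype.card_fin]
  have hQQ : Q.card = Q'.card := by
    apply Finset.card_bij (fun p _ => (p.2, p.1))
    · intro p hp
      simp only [hQ, hQ', Finset.mem_filter, Finset.mem_offDiag] at hp ⊢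
      exact ⟨⟨hp.1.2.1, hp.1.1, Ne.symm hp.1.2.2⟩, by omega⟩
    · intro p _ p' _ h
      rw [Prod.mk.injEq] at h
      exact Prod.ext h.2 h.1
    · intro p hp
      simp only [hQ, hQ', Finset.mem_filter, Finset.mem_offDiag] at hp ⊢
      refine ⟨(p.2, p.1), ⟨⟨hp.1.2.1, hp.1.1, Ne.symm hp.1.2.2⟩, ?_⟩, rfl⟩
      have := hp.1.2.2
      have h2 : (p.1 : ℕ) ≠ p.2 := fun h => this (Fin.ext h)
      have h3 := hp.2
      rw [Fin.lt_def] at h3 ⊢
      show (p.2 : ℕ) < p.1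
      omega
  have hsum : Q.card + Q'.card = U.offDiag.card := Finset.card_filter_add_card_filter_not _
  rw [Finset.offDiag_card, hcU] at hsum
  have hQc : f ≤ Q.card := by
    have h1 : (N - 1) * (N - 1) - (N - 1) = (N - 1) * (N - 2) := by
      rcases N with _ | _ | N
      · omega
      · rfl
      · show (N + 1) * (N + 1) - (N + 1) = (N + 1) * N
        have : (N+1)*(N+1) = (N+1)*N + (N+1) := by ring
        omega
    rw [h1] at hsum
    omega
  obtain ⟨F, hF1, hF2⟩ := Finset.exists_subset_card_eq hQc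
  refine ⟨fun t t' => t ≠ t' ∧ (t, t') ∉ F ∧ (t', t) ∉ F, ?_, ?_, ?_⟩
  · rintro t t' ⟨h1, h2, h3⟩
    exact ⟨Ne.symm h1, h3, h2⟩
  · intro t ht
    have h0 : ∀ p ∈ F, p.1 ≠ ⟨0, hN⟩ ∧ p.2 ≠ ⟨0, hN⟩ := by
      intro p hp
      have := hF1 hp
      simp only [hQ, hU, Finset.mem_filter, Finset.mem_offDiag, Finset.mem_erase] at this
      exact ⟨this.1.1.1, this.1.2.1.1⟩
    exact ⟨Ne.symm ht, fun h => (h0 _ h).1 rfl, fun h => (h0 _ h).2 rfl⟩
  · intro inst
    have hlt : ∀ p ∈ F, p.1 < p.2 := by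
      intro p hp
      have := hF1 hp
      simp only [hQ, Finset.mem_filter] at this
      exact this.2
    have : ∀ t t' : Fin N, (if t ≠ t' ∧ ¬ (t ≠ t' ∧ (t, t') ∉ F ∧ (t', t) ∉ F) then 1 else 0) = 
        (if (t, t') ∈ F then 1 else 0) + (if (t', t) ∈ F then 1 else 0) := by
      intro t t'
      by_cases h1 : (t, t') ∈ F
      · have h2 : (t', t) ∉ F := fun h => absurd (hlt _ h1) (not_lt.mpr (hlt _ h).le)
        have h3 : t ≠ t' := (hlt _ h1).ne
        rw [if_pos ⟨h3, fun h => h.2.1 h1⟩, if_pos h1, if_neg h2]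
      · by_cases h2 : (t', t) ∈ F
        · have h3 : t ≠ t' := (hlt _ h2).ne'
          rw [if_pos ⟨h3, fun h => h.2.2 h2⟩, if_neg h1, if_pos h2]
        · rw [if_neg (fun h => h.2 ⟨h.1, h1, h2⟩), if_neg h1, if_neg h2]
    simp only [this, Finset.sum_add_distrib]
    have e1 : (∑ t : Fin N, ∑ t' : Fin N, (if (t, t') ∈ F then 1 else 0)) = F.card := by
      rw [← Finset.sum_product' (f := fun t t' => if (t, t') ∈ F then 1 else 0), ← Finset.card_filter]
      congr 1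
      ext p
      simp
    have e2 : (∑ t : Fin N, ∑ t' : Fin N, (if (t', t) ∈ F then 1 else 0)) = F.card := by
      rw [Finset.sum_comm]; exact e1
    rw [e1, e2, hF2]
    ring

end Pool.Agent.X137.WR
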