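import Mathlib

namespace Pool.Agent.X137.WR
open Finset

section general
variable {V : Type*}

/-- the graph whose edges are the pairs with value 1 -/
def gr (δ : V → V → ℕ) (h0 : ∀ u, δ u u = 0) (hs : ∀ u v, δ u v = δ v u) : SimpleGraph V where
  Adj u v := δ u v = 1
  symm := ⟨fun u v h => by rw [hs v u]; exact h⟩
  loopless := ⟨fun u h => by rw [h0 u] at h; exact absurd h (by norm_num)⟩

theorem walk_of (δ : V → V → ℕ) (h0 : ∀ u, δ u u = 0) (hs : ∀ u v, δ u v = δ v u)
    (h0' : ∀ u v, δ u v = 0 → u = v)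
    (hgeo : ∀ u v, 2 ≤ δ u v → ∃ w, δ u w = 1 ∧ δ w v + 1 = δ u v) :
    ∀ (n : ℕ) (u v : V), δ u v = n → ∃ p : (gr δ h0 hs).Walk u v, p.length = n := by
  intro n
  induction n with
  | zero => 
    intro u v h
    have := h0' u v h
    subst this
    exact ⟨SimpleGraph.Walk.nil, rfl⟩
  | succ n ih =>
    intro u v h
    rcases Nat.eq_zero_or_pos n with hn | hn
    · subst hn
      have ha : (gr δ h0 hs).Adj u v := h
      exact ⟨SimpleGraph.Walk.cons ha SimpleGraph.Walk.nil, rfl⟩
    · obtain ⟨w, h1, h2⟩ := hgeo u v (by omega)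
      obtain ⟨p, hp⟩ := ih w v (by omega)
      have ha : (gr δ h0 hs).Adj u w := h1
      exact ⟨SimpleGraph.Walk.cons ha p, by simp [hp]⟩

theorem le_walk (δ : V → V → ℕ) (h0 : ∀ u, δ u u = 0) (hs : ∀ u v, δ u v = δ v u)
    (htri : ∀ u w v, δ u w = 1 → δ u v ≤ δ w v + 1) :
    ∀ (u v : V) (p : (gr δ h0 hs).Walk u v), δ u v ≤ p.length := by
  intro u v p
  induction p with
  | nil => simp [h0]
  | @cons a b c ha p ih => 
    have := htri a b c ha
    rw [SimpleGraph.Walk.length_cons]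
    omega

theorem dist_eq (δ : V → V → ℕ) (h0 : ∀ u, δ u u = 0) (hs : ∀ u v, δ u v = δ v u)
    (h0' : ∀ u v, δ u v = 0 → u = v)
    (hgeo : ∀ u v, 2 ≤ δ u v → ∃ w, δ u w = 1 ∧ δ w v + 1 = δ u v)
    (htri : ∀ u w v, δ u w = 1 → δ u v ≤ δ w v + 1) (u v : V) :
    (gr δ h0 hs).dist u v = δ u v := by
  obtain ⟨p, hp⟩ := walk_of δ h0 hs h0' hgeo _ u v rfl
  apply le_antisymm
  · rw [← hp]; exact SimpleGraph.dist_le p
  · obtain ⟨q, hq⟩ := (SimpleGraph.Walk.reachable p).exists_walk_length_eq_dist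
    rw [← hq]; exact le_walk δ h0 hs htri u v q

theorem conn (δ : V → V → ℕ) (h0 : ∀ u, δ u u = 0) (hs : ∀ u v, δ u v = δ v u)
    (h0' : ∀ u v, δ u v = 0 → u = v)
    (hgeo : ∀ u v, 2 ≤ δ u v → ∃ w, δ u w = 1 ∧ δ w v + 1 = δ u v) [Nonempty V] :
    (gr δ h0 hs).Connected := by
  refine ⟨fun u v => ?_⟩
  obtain ⟨p, hp⟩ := walk_of δ h0 hs h0' hgeo _ u v rfl
  exact p.reachable

end general

section structure_
variable {N A : ℕ} {L : ℕ → ℕ}

abbrev VV (N A : ℕ) (L : ℕ → ℕ) := Fin N ⊕ (Σ s : Fin A, Fin (L s))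

open Classical in
noncomputable def dl (rel : Fin N → ℕ → Prop) (E : Fin N → Fin N → Prop) : VV N A L → VV N A L → ℕ
  | Sum.inl t, Sum.inl t' => if t = t' then 0 else if E t t' then 1 else 2
  | Sum.inl t, Sum.inr y => (y.1 : ℕ) + (if rel t y.2 then 1 else 2)
  | Sum.inr y, Sum.inl t => (y.1 : ℕ) + (if rel t y.2 then 1 else 2)
  | Sum.inr y, Sum.inr y' => ((y.1 : ℕ) - y'.1) + ((y'.1 : ℕ) - y.1) + (if (y.2 : ℕ) = y'.2 then 0 else 1)

variable (rel : Fin N → ℕ → Prop) (E : Fin N → Fin N → Prop)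

theorem dl_self (u : VV N A L) : dl rel E u u = 0 := by
  rcases u with t | y
  · simp [dl]
  · simp [dl]

theorem dl_symm (hE : ∀ t t', E t t' → E t' t) (u v : VV N A L) : dl rel E u v = dl rel E v u := by
  rcases u with t | y <;> rcases v with t' | y'
  · simp only [dl]
    have : E t t' ↔ E t' t := ⟨hE _ _, hE _ _⟩
    by_cases h : t = t'
    · subst h; rfl
    · rw [if_neg h, if_neg (show ¬ t' = t from fun h' => h h'.symm)]
      by_cases hh : E t t'
      · rw [if_pos hh, if_pos (hE _ _ hh)]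
      · rw [if_neg hh, if_neg (fun h' => hh (hE _ _ h'))]
  · simp only [dl]
  · simp only [dl]
  · simp only [dl]
    have : ((y.2 : ℕ) = y'.2) ↔ ((y'.2 : ℕ) = y.2) := ⟨Eq.symm, Eq.symm⟩
    simp only [this]
    omega

theorem dl_zero (u v : VV N A L) (h : dl rel E u v = 0) : u = v := by
  rcases u with t | ⟨s, i⟩ <;> rcases v with t' | ⟨s', i'⟩
  · simp only [dl] at h
    split_ifs at h with h1
    · rw [h1]
  · simp only [dl] at h
    split_ifs at h <;> omega
  · simp only [dl] at h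
    split_ifs at h <;> omega
  · simp only [dl] at h
    split_ifs at h with h1
    · have : s = s' := by apply Fin.ext; omega
      subst this
      have : i = i' := Fin.ext h1
      subst this
      rfl

theorem dl_tri (u w v : VV N A L) (h : dl rel E u w = 1) : dl rel E u v ≤ dl rel E w v + 1 := by
  rcases u with t | ⟨s, i⟩ <;> rcases w with t'' | ⟨s'', i''⟩ <;> rcases v with t' | ⟨s', i'⟩
  · -- t t t
    simp only [dl] at *
    split_ifs at * <;> first | omega | (subst_vars; simp_all)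
  · simp only [dl] at *
    split_ifs at * <;> omega
  · simp only [dl] at *
    split_ifs at * <;> omega
  · -- u = t, w = (s'',i''), v = (s', i')
    simp only [dl] at *
    by_cases h1 : rel t (i'' : ℕ)
    · rw [if_pos h1] at h
      by_cases h2 : (i'' : ℕ) = i'
      · rw [h2] at h1
        rw [if_pos h1, if_pos h2]; omega
      · rw [if_neg h2]
        split_ifs <;> omega
    · rw [if_neg h1] at h
      omega
  · -- u = (s,i), w = t'', v = t'
    simp only [dl] at *
    by_cases h1 : rel t'' (i : ℕ)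
    · rw [if_pos h1] at h
      by_cases h2 : t'' = t'
      · subst h2
        rw [if_pos h1, if_pos rfl]; omega
      · rw [if_neg h2]
        split_ifs <;> omega
    · rw [if_neg h1] at h
      omega
  · simp only [dl] at *
    split_ifs at * <;> omega
  · -- u = (s,i), w=(s'',i''), v = t'
    simp only [dl] at *
    by_cases h1 : (i : ℕ) = i''
    · rw [h1]
      rw [if_pos h1] at h
      split_ifs <;> omega
    · rw [if_neg h1] at h
      split_ifs <;> omega
  · simp only [dl] at *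
    by_cases h1 : (i : ℕ) = i''
    · rw [h1]
      rw [if_pos h1] at h
      split_ifs <;> omega
    · rw [if_neg h1] at h
      split_ifs <;> omega

theorem dl_geo (t0 : Fin N) (hE : ∀ t t', E t t' → E t' t) (h1 : ∀ i, rel t0 i) (h2 : ∀ t, t ≠ t0 → E t0 t)
    (hL : ∀ s, L (s+1) ≤ L s) (u v : VV N A L) (h : 2 ≤ dl rel E u v) :
    ∃ w, dl rel E u w = 1 ∧ dl rel E w v + 1 = dl rel E u v := by
  have hLm : ∀ a b, a ≤ b → L b ≤ L a := by
    intro a b hab
    induction hab with
    | refl => exact le_rfl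
    | step _ ih => exact le_trans (hL _) ih
  rcases u with t | ⟨s, i⟩ <;> rcases v with t' | ⟨s', i'⟩
  · refine ⟨Sum.inl t0, ?_⟩
    simp only [dl] at *
    by_cases h3 : t = t'
    · rw [if_pos h3] at h; omega
    · rw [if_neg h3] at h ⊢
      by_cases h4 : E t t'
      · rw [if_pos h4] at h; omega
      · rw [if_neg h4]
        have h5 : t ≠ t0 := by
          rintro rfl
          exact h4 (h2 _ (fun h' => h3 h'.symm))
        have h6 : t' ≠ t0 := by
          rintro rfl
          exact h4 (hE _ _ (h2 _ h3))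
        rw [if_neg h5, if_pos (hE _ _ (h2 _ h5)), if_neg (Ne.symm h6), if_pos (h2 _ h6)]
        exact ⟨rfl, rfl⟩
  · by_cases h3 : rel t (i' : ℕ)
    · have hs : 0 < A := lt_of_le_of_lt (Nat.zero_le _) s'.2
      refine ⟨Sum.inr ⟨⟨0, hs⟩, ⟨i', lt_of_lt_of_le i'.2 (hLm _ _ (Nat.zero_le _))⟩⟩, ?_⟩
      simp only [dl] at h ⊢
      simp only [if_pos h3, if_true, true_and] at h ⊢
      omega
    · refine ⟨Sum.inl t0, ?_⟩
      simp only [dl] at *
      have h5 : t ≠ t0 := by
        rintro rfl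
        exact h3 (h1 _)
      rw [if_neg h5, if_pos (hE _ _ (h2 _ h5)), if_neg h3, if_pos (h1 _)]
      omega
  · rcases Nat.eq_zero_or_pos (s : ℕ) with hs | hs
    · refine ⟨Sum.inl t0, ?_⟩
      simp only [dl] at *
      have h3 : ¬ rel t' (i : ℕ) := by
        intro h3
        rw [if_pos h3] at h
        omega
      have h5 : t' ≠ t0 := by
        rintro rfl
        exact h3 (h1 _)
      rw [if_pos (h1 _), if_neg (Ne.symm h5), if_pos (h2 _ h5), if_neg h3]
      omega
    · refine ⟨Sum.inr ⟨⟨s - 1, by omega⟩, ⟨i, lt_of_lt_of_le i.2 (hLm _ _ (by simp))⟩⟩, ?_⟩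
      simp only [dl] at *
      simp only [if_true]
      split_ifs <;> omega
  · by_cases h3 : (i : ℕ) = i'
    · simp only [dl] at h
      rw [if_pos h3] at h
      rcases lt_trichotomy (s : ℕ) s' with h4 | h4 | h4
      · refine ⟨Sum.inr ⟨⟨s + 1, by omega⟩, ⟨i, lt_of_lt_of_le (by rw [h3]; exact i'.2) (hLm _ _ (by simpa using h4))⟩⟩, ?_⟩
        simp only [dl]
        simp only [h3, if_true]
        omega
      · omega
      · refine ⟨Sum.inr ⟨⟨s - 1, by omega⟩, ⟨i, lt_of_lt_of_le i.2 (hLm _ _ (by simp))⟩⟩, ?_⟩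
        simp only [dl]
        simp only [h3, if_true]
        omega
    · simp only [dl] at h
      rw [if_neg h3] at h
      rcases lt_trichotomy (s : ℕ) s' with h4 | h4 | h4
      · refine ⟨Sum.inr ⟨s, ⟨i', lt_of_lt_of_le i'.2 (hLm _ _ h4.le)⟩⟩, ?_⟩
        simp only [dl]
        simp only [if_neg h3, if_true, and_true]
        omega
      · omega
      · refine ⟨Sum.inr ⟨⟨s - 1, by omega⟩, ⟨i, lt_of_lt_of_le i.2 (hLm _ _ (by simp))⟩⟩, ?_⟩
        simp only [dl]
        simp only [if_neg h3, if_true]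
        omega

end structure_
end Pool.Agent.X137.WR
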