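import Mathlib

namespace Pool.Agent.X137.WR
open Finset

/-- the root parameter -/
def RR (A : ℕ) : ℕ := 4 * A ^ 3

def hh (A s : ℕ) : ℕ := A.choose (s+1) * (RR A) ^ (A - (s+1))

def LL (A s : ℕ) : ℕ := 2 * hh A (max s 1)

def nn (A : ℕ) : ℕ := 2 * (RR A + 1) ^ A

def YY (A : ℕ) : ℕ := ∑ s ∈ range A, LL A s

def NN (A : ℕ) : ℕ := nn A - YY A

theorem hh_step (A : ℕ) (hA : 2 ≤ A) (s : ℕ) : 4 * hh A (s+1) ≤ hh A s := by
  unfold hh
  by_cases h : s + 2 ≤ A
  · have e1 : A - (s+1) = (A - (s+1+1)) + 1 := by omega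
    rw [e1, pow_succ]
    have h1 : A.choose (s+1+1) * (s+1+1) = A.choose (s+1) * (A - (s+1)) := Nat.choose_succ_right_eq A (s+1)
    have h2 : A.choose (s+1+1) ≤ A.choose (s+1) * A := by
      calc A.choose (s+1+1) ≤ A.choose (s+1+1) * (s+1+1) := Nat.le_mul_of_pos_right _ (by omega)
        _ = A.choose (s+1) * (A - (s+1)) := h1
        _ ≤ A.choose (s+1) * A := Nat.mul_le_mul_left _ (Nat.sub_le _ _)
    have h3 : 4 * A ≤ RR A := by
      unfold RR
      have : A ≤ A ^ 3 := Nat.le_self_pow (by norm_num) A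
      omega
    calc 4 * (A.choose (s+1+1) * RR A ^ (A - (s+1+1))) = (4 * A.choose (s+1+1)) * RR A ^ (A - (s+1+1)) := by ring
      _ ≤ (4 * (A.choose (s+1) * A)) * RR A ^ (A - (s+1+1)) := by
          apply Nat.mul_le_mul_right; omega
      _ = (A.choose (s+1) * RR A ^ (A - (s+1+1))) * (4 * A) := by ring
      _ ≤ (A.choose (s+1) * RR A ^ (A - (s+1+1))) * RR A := Nat.mul_le_mul_left _ h3
      _ = _ := by ring
  · rw [Nat.choose_eq_zero_of_lt (show A < s+1+1 by omega)]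
    simp

theorem hh_anti (A : ℕ) (hA : 2 ≤ A) : ∀ a b, a ≤ b → hh A b ≤ hh A a := by
  intro a b hab
  induction hab with
  | refl => exact le_rfl
  | @step m _ ih => 
    have : 4 * hh A m.succ ≤ hh A m := hh_step A hA m
    omega

theorem LL_anti (A : ℕ) (hA : 2 ≤ A) : ∀ a b, a ≤ b → LL A b ≤ LL A a := by
  intro a b hab
  unfold LL
  have := hh_anti A hA (max a 1) (max b 1) (by omega)
  omega

theorem LL_zero (A : ℕ) (hA : 2 ≤ A) : ∀ s, A ≤ s → LL A s = 0 := by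
  intro s hs
  unfold LL hh
  rw [Nat.choose_eq_zero_of_lt (by omega)]
  simp

theorem hh0 (A : ℕ) (hA : 2 ≤ A) : 4 * A^2 * hh A 0 = RR A ^ A := by
  unfold hh
  have : A = (A - 1) + 1 := by omega
  rw [Nat.choose_one_right]
  calc 4 * A^2 * (A * RR A ^ (A - (0+1))) = (4 * A^3) * RR A ^ (A - 1) := by
        rw [zero_add]; ring
    _ = RR A * RR A ^ (A - 1) := by rfl
    _ = RR A ^ (A - 1 + 1) := by rw [pow_succ]; ring
    _ = RR A ^ A := by rw [← this]

theorem nn_ge (A : ℕ) (hA : 2 ≤ A) : 8 * A^2 * hh A 0 ≤ nn A := by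
  unfold nn
  have h1 := hh0 A hA
  have h2 : RR A ^ A ≤ (RR A + 1) ^ A := Nat.pow_le_pow_left (by omega) A
  calc 8 * A^2 * hh A 0 = 2 * (4 * A^2 * hh A 0) := by ring
    _ = 2 * RR A ^ A := by rw [h1]
    _ ≤ _ := by omega

theorem YY_le (A : ℕ) (hA : 2 ≤ A) : 2 * YY A ≤ A * hh A 0 := by
  have h1 : YY A ≤ A * LL A 0 := by
    unfold YY
    calc ∑ s ∈ range A, LL A s ≤ ∑ s ∈ range A, LL A 0 := by
          apply Finset.sum_le_sum
          intro s _
          exact LL_anti A hA 0 s (Nat.zero_le _)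
      _ = _ := by simp
  have h2 : LL A 0 = 2 * hh A 1 := rfl
  have h3 := hh_step A hA 0
  have h4 : 2 * LL A 0 ≤ hh A 0 := by rw [h2]; simpa using (by omega : 2 * (2 * hh A (0+1)) ≤ hh A 0)
  calc 2 * YY A ≤ 2 * (A * LL A 0) := by omega
    _ = A * (2 * LL A 0) := by ring
    _ ≤ _ := Nat.mul_le_mul_left _ h4

theorem hh0_pos (A : ℕ) (hA : 2 ≤ A) : 1 ≤ hh A 0 := by
  unfold hh
  rw [Nat.choose_one_right]
  have : 0 < RR A := by unfold RR; positivity
  have h2 : 0 < RR A ^ (A - (0+1)) := pow_pos this _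
  exact Nat.mul_pos (by omega) h2

theorem bounds (A : ℕ) (hA : 2 ≤ A) : 
    YY A + NN A = nn A ∧ nn A + 1 ≤ 2 * NN A ∧ NN A + 1 ≤ nn A ∧ A * A * LL A 0 ≤ NN A ∧ 
      4 * hh A 0 + 2 ≤ NN A := by
  have h1 := nn_ge A hA
  have h2 := YY_le A hA
  have h3 := hh0_pos A hA
  have h4 : LL A 0 = 2 * hh A 1 := rfl
  have h5 := hh_step A hA 0
  rw [zero_add] at h5
  have h6 : 1 ≤ LL A 0 := by
    rw [h4]
    have : 1 ≤ hh A 1 := by
      unfold hh
      have : 0 < RR A := by unfold RR; positivity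
      have h2 : 0 < RR A ^ (A - (1+1)) := pow_pos this _
      exact Nat.mul_pos (Nat.choose_pos (by omega)) h2
    omega
  have h7 : LL A 0 ≤ YY A := by
    unfold YY
    exact Finset.single_le_sum (f := fun s => LL A s) (fun _ _ => Nat.zero_le _) (Finset.mem_range.mpr (by omega))
  -- A^2 * h0 =: q, A * h0 ≤ q / 2
  have h8 : 2 * (A * hh A 0) ≤ A^2 * hh A 0 := by
    calc 2 * (A * hh A 0) ≤ A * (A * hh A 0) := Nat.mul_le_mul_right _ hA
      _ = _ := by ring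
  have h9 : 2 * hh A 0 ≤ A * hh A 0 := Nat.mul_le_mul_right _ hA
  have h10 : A * A * LL A 0 * 2 ≤ A^2 * hh A 0 := by
    calc A * A * LL A 0 * 2 = A^2 * (4 * hh A 1) := by rw [h4]; ring
      _ ≤ _ := Nat.mul_le_mul_left _ h5
  have h11 : 8 * A^2 * hh A 0 = 8 * (A^2 * hh A 0) := by ring
  rw [h11] at h1
  unfold NN
  refine ⟨by omega, by omega, by omega, by omega, by omega⟩

end Pool.Agent.X137.WR
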