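import Pool.Agent.X137.WR.Sums
import Pool.Agent.X137.WR.Param

namespace Pool.Agent.X137.WR
open Finset Polynomial

theorem exists_graph (A : ℕ) (hA : 2 ≤ A) : 
    ∃ (rel : Fin (NN A) → ℕ → Prop) (E : Fin (NN A) → Fin (NN A) → Prop) (t0 : Fin (NN A)),
      (∀ t t', E t t' → E t' t) ∧ (∀ i, rel t0 i) ∧ (∀ t, t ≠ t0 → E t0 t) ∧
      ∀ m, cnt rel E A (LL A) (m+2) = 2 * ((nn A - 1) * hh A m) := by
  classical
  obtain ⟨b1, b2, b3, b4, b5⟩ := bounds A hA
  have hN : 0 < NN A := by omega
  have hanti := LL_anti A hA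
  have hzero := LL_zero A hA
  set n := nn A with hn
  set N := NN A with hNd
  have hL0 : LL A 0 = LL A 1 := rfl
  -- basic inequality (ii)
  have hii : ∀ m, cY A (LL A) (m+2) + N * LL A (m+1) ≤ (n - 1) * hh A m := by
    intro m
    have c1 := cY_bound A (LL A) hanti hzero m
    have c2 : LL A (m+1) = 2 * hh A (m+1) := by
      unfold LL
      rw [max_eq_left (by omega)]
    have c3 : (A * LL A 0) * (A * LL A (m+1)) ≤ N * LL A (m+1) := by
      calc (A * LL A 0) * (A * LL A (m+1)) = (A * A * LL A 0) * LL A (m+1) := by ring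
        _ ≤ _ := Nat.mul_le_mul_right _ b4
    have c4 : N * LL A (m+1) + N * LL A (m+1) ≤ (n - 1) * hh A m := by
      calc N * LL A (m+1) + N * LL A (m+1) = N * (4 * hh A (m+1)) := by rw [c2]; ring
        _ ≤ N * hh A m := Nat.mul_le_mul_left _ (hh_step A hA m)
        _ ≤ _ := Nat.mul_le_mul_right _ (by omega)
    omega
  have hLm : ∀ m, 1 ≤ m → LL A m = 2 * hh A m := by
    intro m hm
    unfold LL
    rw [max_eq_left hm]
  have hi : ∀ m, 1 ≤ m → (n - 1) * hh A m + LL A m ≤ N * LL A m := by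
    intro m hm
    rw [hLm m hm]
    calc (n - 1) * hh A m + 2 * hh A m = (n - 1 + 2) * hh A m := by ring
      _ ≤ (2 * N) * hh A m := Nat.mul_le_mul_right _ (by omega)
      _ = _ := by ring
  obtain ⟨rel, hr1, hr2⟩ := exists_rel N ⟨0, hN⟩ (LL A) hanti 
    (fun m => cY A (LL A) (m+2) + N * LL A m - (n - 1) * hh A m)
    (by
      intro m hm
      have := hi m hm
      show LL A m - LL A (m+1) ≤ cY A (LL A) (m+2) + N * LL A m - (n - 1) * hh A m
      omega)
    (by
      intro m hm
      have h1 := hi m hm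
      have h2 := hii m
      show cY A (LL A) (m+2) + N * LL A m - (n - 1) * hh A m ≤ N * (LL A m - LL A (m+1))
      rw [Nat.mul_sub]
      omega)
  obtain ⟨E, hE1, hE2, hE3⟩ := exists_E N hN ((n - 1) * hh A 0 - N * LL A 0 - cY A (LL A) 2)
    (by
      have h1 : 2 * ((n - 1) * hh A 0) ≤ (N - 1) * (N - 2) := by
        calc 2 * ((n - 1) * hh A 0) = (n - 1) * (2 * hh A 0) := by ring
          _ ≤ (2 * (N - 1)) * (2 * hh A 0) := Nat.mul_le_mul_right _ (by omega)
          _ = (N - 1) * (4 * hh A 0) := by ring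
          _ ≤ _ := Nat.mul_le_mul_left _ (by omega)
      omega)
  refine ⟨rel, E, ⟨0, hN⟩, hE1, hr1, hE2, ?_⟩
  intro m
  rw [cnt_eq rel E (m+2) (by omega)]
  have hc := cTY_eq (A := A) (L := LL A) rel hzero m
  rcases Nat.eq_zero_or_pos m with hm | hm
  · subst hm
    rw [cTT_two, hE3]
    have h2 := hii 0
    rw [zero_add] at hc h2
    rw [zero_add] at h2
    rw [← hL0] at hc h2
    rw [zero_add]
    omega
  · rw [cTT_big rel E (m+2) (by omega)]
    have h1 := hi m hm
    have h2 := hii m
    have h3 := rho_diff rel (LL A m) (LL A (m+1)) (hanti _ _ (Nat.le_succ _))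
    have h4 := hr2 m hm
    rw [h4] at h3
    omega

theorem poly_ext_of (p q : ℚ[X]) (h : ∀ k, k ≠ 1 → p.coeff k = q.coeff k) (h1 : p.eval 1 = q.eval 1) : p = q := by
  have h2 : p - q = C ((p - q).coeff 1) * X := by
    ext k
    rw [coeff_C_mul, coeff_X]
    by_cases hk : k = 1
    · subst hk; simp
    · rw [coeff_sub, h k hk, if_neg (fun h => hk h.symm)]
      simp
  have h3 : (p - q).eval 1 = 0 := by rw [eval_sub, h1, sub_self]
  rw [h2] at h3
  simp only [eval_mul, eval_C, eval_X, mul_one] at h3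
  rw [h3, C_0, zero_mul] at h2
  exact sub_eq_zero.mp h2

/-- Wiener polynomial: half of the sum over ordered pairs of distinct vertices. -/
noncomputable def Wiener {V : Type} [Fintype V] [DecidableEq V] (G : SimpleGraph V) : ℚ[X] :=
  C (1/2) * ∑ p ∈ (univ : Finset V).offDiag, X ^ G.dist p.1 p.2

theorem sum_poly (A : ℕ) (hA : 2 ≤ A) (rel : Fin (NN A) → ℕ → Prop) (E : Fin (NN A) → Fin (NN A) → Prop)
    (hc : ∀ m, cnt rel E A (LL A) (m+2) = 2 * ((nn A - 1) * hh A m)) 
    [DecidableEq (VV (NN A) A (LL A))] :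
    (∑ p ∈ (univ : Finset (VV (NN A) A (LL A))).offDiag, (X : ℚ[X]) ^ (dl rel E p.1 p.2)) = 
      C (2 * ((nn A - 1 : ℕ) : ℚ)) * (X * (X + C ((RR A : ℕ) : ℚ)) ^ A) := by
  obtain ⟨b1, b2, b3, b4, b5⟩ := bounds A hA
  apply poly_ext_of
  · intro k hk
    rw [finset_sum_coeff, coeff_C_mul]
    rcases k with _ | _ | m
    · rw [mul_coeff_zero, coeff_X_zero, zero_mul, mul_zero]
      apply Finset.sum_eq_zero
      intro p hp
      rw [Finset.mem_offDiag] at hp
      rw [coeff_X_pow, if_neg]
      intro h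
      exact hp.2.2 (dl_zero rel E _ _ h.symm)
    · exact absurd rfl hk
    · rw [coeff_X_mul, coeff_X_add_C_pow]
      have h1 : (∑ p ∈ (univ : Finset (VV (NN A) A (LL A))).offDiag, ((X : ℚ[X]) ^ (dl rel E p.1 p.2)).coeff (m+1+1)) = 
          ((cnt rel E A (LL A) (m+2) : ℕ) : ℚ) := by
        unfold cnt
        rw [← Finset.sum_product' (f := fun u v => if dl rel E u v = m+2 then 1 else 0)]
        push_cast
        have h2 : (univ : Finset (VV (NN A) A (LL A))).offDiag ⊆ univ ×ˢ univ := by
          intro p _; simp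
        rw [← Finset.sum_subset h2]
        · apply Finset.sum_congr rfl
          intro p _
          rw [coeff_X_pow]
          by_cases h : dl rel E p.1 p.2 = m + 2
          · rw [if_pos h, if_pos (by omega)]
          · rw [if_neg h, if_neg (by omega)]
        · intro p _ hp
          rw [Finset.mem_offDiag] at hp
          have h3 : p.1 = p.2 := by
            by_contra h
            exact hp ⟨Finset.mem_univ _, Finset.mem_univ _, h⟩
          rw [if_neg]
          rw [h3, dl_self]
          omega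
      rw [h1, hc m]
      unfold hh
      push_cast
      ring
  · rw [eval_finset_sum]
    simp only [eval_pow, eval_X, one_pow, eval_mul, eval_C, eval_add, one_mul]
    rw [Finset.sum_const, Finset.offDiag_card, Finset.card_univ]
    have hcard : Fintype.card (VV (NN A) A (LL A)) = nn A := by
      rw [Fintype.card_sum, Fintype.card_fin, Fintype.card_sigma]
      simp only [Fintype.card_fin]
      rw [Fin.sum_univ_eq_sum_range (fun s => LL A s) A]
      have : (∑ s ∈ range A, LL A s) = YY A := rfl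
      omega
    rw [hcard, nsmul_eq_mul, mul_one]
    have h1 : nn A * nn A - nn A = (nn A - 1) * nn A := by
      rw [Nat.sub_mul, one_mul]
    rw [h1]
    have h2 : (nn A : ℚ) = 2 * (1 + (RR A : ℚ)) ^ A := by
      unfold nn
      push_cast
      ring
    rw [Nat.cast_mul]
    rw [h2]
    ring

theorem main (A : ℕ) (hA : 2 ≤ A) : ∃ (V : Type) (_ : Fintype V) (_ : DecidableEq V) (G : SimpleGraph V),
    G.Connected ∧ (∀ u v, G.dist u v ≤ A + 1) ∧ (∃ u v, G.dist u v = A + 1) ∧ 
      ∃ a r : ℕ, 0 < a ∧ 0 < r ∧ Wiener G = C (a : ℚ) * (X * (X + C (r : ℚ)) ^ A) := by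
  classical
  obtain ⟨b1, b2, b3, b4, b5⟩ := bounds A hA
  obtain ⟨rel, E, t0, hE, h1, h2, hc⟩ := exists_graph A hA
  have hanti := LL_anti A hA
  have hgeo := fun u v => dl_geo (A := A) (L := LL A) rel E t0 hE h1 h2 (fun s => hanti s (s+1) (Nat.le_succ _)) u v
  refine ⟨VV (NN A) A (LL A), inferInstance, inferInstance, 
    gr (dl rel E) (dl_self rel E) (dl_symm rel E hE), ?_, ?_, ?_, nn A - 1, RR A, ?_, ?_, ?_⟩
  · have : Nonempty (VV (NN A) A (LL A)) := ⟨Sum.inl t0⟩
    exact conn _ _ _ (dl_zero rel E) hgeo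
  · intro u v
    rw [dist_eq _ _ _ (dl_zero rel E) hgeo (dl_tri rel E)]
    rcases u with t | ⟨s, i⟩ <;> rcases v with t' | ⟨s', i'⟩
    · simp only [dl]
      split_ifs <;> omega
    · simp only [dl]
      split_ifs <;> omega
    · simp only [dl]
      split_ifs <;> omega
    · simp only [dl]
      split_ifs <;> omega
  · by_contra hno
    push Not at hno
    have h3 := hc (A - 1)
    have h4 : cnt rel E A (LL A) (A - 1 + 2) = 0 := by
      unfold cnt
      apply Finset.sum_eq_zero
      intro u _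
      apply Finset.sum_eq_zero
      intro v _
      rw [if_neg]
      intro h
      apply hno u v
      rw [dist_eq _ _ _ (dl_zero rel E) hgeo (dl_tri rel E), h]
      omega
    have h5 : 0 < hh A (A - 1) := by
      unfold hh
      have e : A - 1 + 1 = A := by omega
      rw [e, Nat.choose_self, Nat.sub_self, pow_zero]
      norm_num
    rw [h4] at h3
    have h6 : 0 < (nn A - 1) * hh A (A - 1) := Nat.mul_pos (by omega) h5
    omega
  · omega
  · unfold RR; positivity
  · unfold Wiener
    have : ∀ p ∈ (univ : Finset (VV (NN A) A (LL A))).offDiag, 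
        (X : ℚ[X]) ^ (gr (dl rel E) (dl_self rel E) (dl_symm rel E hE)).dist p.1 p.2 = X ^ (dl rel E p.1 p.2) := by
      intro p _
      rw [dist_eq _ _ _ (dl_zero rel E) hgeo (dl_tri rel E)]
    rw [Finset.sum_congr rfl this, sum_poly A hA rel E hc, ← mul_assoc, ← C_mul]
    congr 2
    ring

end Pool.Agent.X137.WR
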