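import Pool.Agent.X137.WR.Count

namespace Pool.Agent.X137.WR
open Finset

section
variable {N A : ℕ} {L : ℕ → ℕ} (rel : Fin N → ℕ → Prop) (E : Fin N → Fin N → Prop)

open Classical in
/-- number of related pairs among the first `m` arms -/
noncomputable def rho (m : ℕ) : ℕ := ∑ t : Fin N, ∑ i ∈ range m, (if rel t i then 1 else 0)

/-- ordered pairs with value k -/
noncomputable def cnt (A : ℕ) (L : ℕ → ℕ) (k : ℕ) : ℕ := 
  ∑ u : VV N A L, ∑ v : VV N A L, (if dl rel E u v = k then 1 else 0)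

noncomputable def cTT (k : ℕ) : ℕ := 
  ∑ t : Fin N, ∑ t' : Fin N, (if dl (A := 0) (L := fun _ => 0) rel E (Sum.inl t) (Sum.inl t') = k then 1 else 0)

open Classical in
noncomputable def cTY (A : ℕ) (L : ℕ → ℕ) (k : ℕ) : ℕ := 
  ∑ t : Fin N, ∑ y : (Σ s : Fin A, Fin (L s)), (if (y.1 : ℕ) + (if rel t y.2 then 1 else 2) = k then 1 else 0)

def dY {A : ℕ} {L : ℕ → ℕ} (y y' : (Σ s : Fin A, Fin (L s))) : ℕ := 
  ((y.1 : ℕ) - y'.1) + ((y'.1 : ℕ) - y.1) + (if (y.2 : ℕ) = y'.2 then 0 else 1)

def cY (A : ℕ) (L : ℕ → ℕ) (k : ℕ) : ℕ := 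
  ∑ y : (Σ s : Fin A, Fin (L s)), ∑ y' : (Σ s : Fin A, Fin (L s)), 
    (if (y.1 : ℕ) < y'.1 ∧ dY y y' = k then 1 else 0)

theorem dY_symm {A : ℕ} {L : ℕ → ℕ} (y y' : (Σ s : Fin A, Fin (L s))) : dY y y' = dY y' y := by
  unfold dY
  have : ((y.2 : ℕ) = y'.2) ↔ ((y'.2 : ℕ) = y.2) := ⟨Eq.symm, Eq.symm⟩
  by_cases h : (y.2 : ℕ) = y'.2
  · rw [if_pos h, if_pos h.symm]; omega
  · rw [if_neg h, if_neg (fun h' => h h'.symm)]; omega

theorem cYY_eq (A : ℕ) (L : ℕ → ℕ) (k : ℕ) (hk : 2 ≤ k) :
    (∑ y : (Σ s : Fin A, Fin (L s)), ∑ y' : (Σ s : Fin A, Fin (L s)), 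
      (if dY y y' = k then 1 else 0)) = 2 * cY A L k := by
  have h1 : ∀ y y' : (Σ s : Fin A, Fin (L s)), (if dY y y' = k then 1 else 0) = 
      (if (y.1 : ℕ) < y'.1 ∧ dY y y' = k then 1 else 0) + (if (y'.1 : ℕ) < y.1 ∧ dY y' y = k then 1 else 0) := by
    intro y y'
    rw [dY_symm y' y]
    by_cases h : dY y y' = k
    · have h2 : (y.1 : ℕ) ≠ y'.1 := by
        intro h3
        unfold dY at h
        split_ifs at h <;> omega
      rcases lt_or_gt_of_ne h2 with h3 | h3
      · rw [if_pos h, if_pos ⟨h3, h⟩, if_neg (fun h' => absurd h'.1 (by omega))]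
      · rw [if_pos h, if_neg (fun h' => absurd h'.1 (by omega)), if_pos ⟨h3, h⟩]
    · rw [if_neg h, if_neg (fun h' => h h'.2), if_neg (fun h' => h h'.2)]
  simp only [h1, Finset.sum_add_distrib]
  rw [Finset.sum_comm (f := fun y y' : (Σ s : Fin A, Fin (L s)) => (if (y'.1 : ℕ) < y.1 ∧ dY y' y = k then 1 else 0))]
  unfold cY
  ring

theorem cnt_eq (k : ℕ) (hk : 2 ≤ k) : 
    cnt rel E A L k = cTT rel E k + 2 * cTY rel A L k + 2 * cY A L k := by
  classical
  unfold cnt
  rw [Fintype.sum_sum_type]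
  simp only [Fintype.sum_sum_type, Finset.sum_add_distrib]
  have e1 : (∑ t : Fin N, ∑ t' : Fin N, (if dl (A := A) (L := L) rel E (Sum.inl t) (Sum.inl t') = k then 1 else 0)) = cTT rel E k := rfl
  have e2 : (∑ t : Fin N, ∑ y : (Σ s : Fin A, Fin (L s)), (if dl (A := A) (L := L) rel E (Sum.inl t) (Sum.inr y) = k then 1 else 0)) = cTY rel A L k := rfl
  have e3 : (∑ y : (Σ s : Fin A, Fin (L s)), ∑ t : Fin N, (if dl (A := A) (L := L) rel E (Sum.inr y) (Sum.inl t) = k then 1 else 0)) = cTY rel A L k := by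
    rw [Finset.sum_comm]; rfl
  have e4 : (∑ y : (Σ s : Fin A, Fin (L s)), ∑ y' : (Σ s : Fin A, Fin (L s)), (if dl (A := A) (L := L) rel E (Sum.inr y) (Sum.inr y') = k then 1 else 0)) = 2 * cY A L k := by
    rw [← cYY_eq A L k hk]; rfl
  rw [e1, e2, e3, e4]
  ring

theorem cTT_big (k : ℕ) (hk : 3 ≤ k) : cTT rel E k = 0 := by
  unfold cTT
  apply Finset.sum_eq_zero
  intro t _
  apply Finset.sum_eq_zero
  intro t' _
  rw [if_neg]
  simp only [dl]
  split_ifs <;> omega

open Classical in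
theorem cTT_two : cTT rel E 2 = ∑ t : Fin N, ∑ t' : Fin N, (if t ≠ t' ∧ ¬ E t t' then 1 else 0) := by
  unfold cTT
  apply Finset.sum_congr rfl
  intro t _
  apply Finset.sum_congr rfl
  intro t' _
  simp only [dl]
  by_cases h1 : t = t'
  · simp [h1]
  · by_cases h2 : E t t'
    · simp [h1, h2]
    · simp [h1, h2]

theorem cY_bound (A : ℕ) (L : ℕ → ℕ) (hL : ∀ a b, a ≤ b → L b ≤ L a) (hA : ∀ s, A ≤ s → L s = 0) (m : ℕ) : 
    cY A L (m+2) ≤ (A * L 0) * (A * L (m+1)) := by
  unfold cY
  have h1 : ∀ y y' : (Σ s : Fin A, Fin (L s)), (if (y.1 : ℕ) < y'.1 ∧ dY y y' = m+2 then 1 else 0) ≤ 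
      (if m + 1 ≤ (y'.1 : ℕ) then 1 else 0) := by
    intro y y'
    by_cases h : (y.1 : ℕ) < y'.1 ∧ dY y y' = m+2
    · have : m + 1 ≤ (y'.1 : ℕ) := by
        obtain ⟨h2, h3⟩ := h
        unfold dY at h3
        split_ifs at h3 <;> omega
      rw [if_pos h, if_pos this]
    · rw [if_neg h]; exact Nat.zero_le _
  have hcard : Fintype.card (Σ s : Fin A, Fin (L s)) ≤ A * L 0 := by
    rw [Fintype.card_sigma]
    calc ∑ s : Fin A, Fintype.card (Fin (L s)) ≤ ∑ s : Fin A, L 0 := by
          apply Finset.sum_le_sum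
          intro s _
          rw [Fintype.card_fin]
          exact hL _ _ (Nat.zero_le _)
      _ = A * L 0 := by simp
  have h2 : (∑ y' : (Σ s : Fin A, Fin (L s)), (if m + 1 ≤ (y'.1 : ℕ) then 1 else 0)) ≤ A * L (m+1) := by
    rw [Fintype.sum_sigma]
    calc (∑ s : Fin A, ∑ i : Fin (L s), (if m + 1 ≤ (s : ℕ) then 1 else 0)) ≤ ∑ s : Fin A, L (m+1) := by
          apply Finset.sum_le_sum
          intro s _
          by_cases h : m + 1 ≤ (s : ℕ)
          · simp only [if_pos h, Finset.sum_const, Finset.card_univ, Fintype.card_fin, smul_eq_mul, mul_one]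
            exact hL _ _ h
          · simp only [if_neg h, Finset.sum_const_zero]
            exact Nat.zero_le _
      _ = A * L (m+1) := by simp
  calc _ ≤ ∑ y : (Σ s : Fin A, Fin (L s)), ∑ y' : (Σ s : Fin A, Fin (L s)), (if m + 1 ≤ (y'.1 : ℕ) then 1 else 0) := by
        apply Finset.sum_le_sum
        intro y _
        apply Finset.sum_le_sum
        intro y' _
        exact h1 y y'
    _ = Fintype.card (Σ s : Fin A, Fin (L s)) * ∑ y' : (Σ s : Fin A, Fin (L s)), (if m + 1 ≤ (y'.1 : ℕ) then 1 else 0) := by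
        rw [Finset.sum_const, Finset.card_univ, smul_eq_mul]
    _ ≤ _ := Nat.mul_le_mul hcard h2

theorem cTY_eq (hA : ∀ s, A ≤ s → L s = 0) (m : ℕ) :
    cTY rel A L (m+2) + rho rel (L m) = rho rel (L (m+1)) + N * L m := by
  classical
  unfold cTY
  have h1 : ∀ t : Fin N, (∑ y : (Σ s : Fin A, Fin (L s)), (if (y.1 : ℕ) + (if rel t y.2 then 1 else 2) = m+2 then 1 else 0))
      = ∑ s ∈ range A, ∑ i ∈ range (L s), (if s + (if rel t i then 1 else 2) = m+2 then 1 else 0) := by
    intro t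
    rw [Fintype.sum_sigma, ← Fin.sum_univ_eq_sum_range (fun s => ∑ i ∈ range (L s), (if s + (if rel t i then 1 else 2) = m+2 then 1 else 0)) A]
    apply Finset.sum_congr rfl
    intro s _
    rw [← Fin.sum_univ_eq_sum_range (fun i => (if (s : ℕ) + (if rel t i then 1 else 2) = m+2 then 1 else 0)) (L s)]
  have h2 : ∀ t : Fin N, (∑ s ∈ range A, ∑ i ∈ range (L s), (if s + (if rel t i then 1 else 2) = m+2 then 1 else 0))
      + (∑ i ∈ range (L m), (if rel t i then 1 else 0)) = (∑ i ∈ range (L (m+1)), (if rel t i then 1 else 0)) + L m := by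
    intro t
    have h3 : ∀ s : ℕ, (∑ i ∈ range (L s), (if s + (if rel t i then 1 else 2) = m+2 then 1 else 0)) + 
        (if s = m then (∑ i ∈ range (L m), (if rel t i then 1 else 0)) else 0) = 
        (if s = m + 1 then (∑ i ∈ range (L (m+1)), (if rel t i then 1 else 0)) else 0) + (if s = m then L m else 0) := by
      intro s
      by_cases hs : s = m
      · subst hs
        rw [if_pos rfl, if_neg (by omega), if_pos rfl, ← Finset.sum_add_distrib, zero_add]
        have : ∀ i ∈ range (L s), (if s + (if rel t i then 1 else 2) = s+2 then 1 else 0) + (if rel t i then 1 else 0) = 1 := by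
          intro i _
          by_cases h : rel t i
          · simp [h]
          · simp [h]
        rw [Finset.sum_congr rfl this]
        simp
      · by_cases hs' : s = m + 1
        · subst hs'
          rw [if_neg (by omega), if_pos rfl, if_neg (by omega), add_zero, add_zero]
          apply Finset.sum_congr rfl
          intro i _
          by_cases h : rel t i
          · simp [h]
          · simp [h]
        · rw [if_neg hs, if_neg hs', if_neg hs]
          simp only [add_zero]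
          apply Finset.sum_eq_zero
          intro i _
          rw [if_neg]
          split_ifs <;> omega
    have h4 := Finset.sum_congr (rfl : range A = range A) (fun s _ => h3 s)
    rw [Finset.sum_add_distrib, Finset.sum_add_distrib, Finset.sum_ite_eq', Finset.sum_ite_eq', Finset.sum_ite_eq'] at h4
    by_cases hm : m < A
    · by_cases hm' : m + 1 < A
      · simp only [Finset.mem_range, if_pos hm, if_pos hm'] at h4
        exact h4
      · simp only [Finset.mem_range, if_pos hm, if_neg hm'] at h4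
        rw [hA (m+1) (by omega)]
        simpa using h4
    · simp only [Finset.mem_range, if_neg hm, if_neg (show ¬ m + 1 < A by omega)] at h4
      rw [hA (m+1) (by omega), hA m (by omega)]
      simpa using h4
  rw [Finset.sum_congr rfl (fun t _ => h1 t)]
  unfold rho
  rw [← Finset.sum_add_distrib, Finset.sum_congr rfl (fun t _ => h2 t), Finset.sum_add_distrib]
  simp

theorem rho_diff (a b : ℕ) (hab : b ≤ a) : 
    rho rel a = rho rel b + ∑ t : Fin N, ∑ i ∈ Finset.Ico b a, (open Classical in if rel t i then 1 else 0) := by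
  unfold rho
  rw [← Finset.sum_add_distrib]
  apply Finset.sum_congr rfl
  intro t _
  rw [Finset.sum_range_add_sum_Ico _ hab]

end
end Pool.Agent.X137.WR
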